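import Mathlib

/-!
# Joins of finitely many subnormal soluble subgroups are soluble

Let `J` be generated by subnormal soluble subgroups `H₁, …, Hₙ`. Let `T m` be the derived series of
`J`. We compare `T (m + a)` with the smallest subgroup normalised by `T m` which contains given
subgroups `X i m` of `T m` (`1 ≤ i ≤ n`), uniformly in `m`. Starting with `X i m = [T m, H i]`, we can
replace `X i m` by `[X i m, H i]`, and after finitely many steps `X i m` is contained in `H i`; then we
can replace `X i m` by its derived subgroup until we reach the trivial subgroups.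
-/

set_option autoImplicit false

namespace Pool.Agent.K9h87.SubnormalJoin

open Subgroup
open scoped commutatorElement

variable {G : Type*} [Group G]

/-- `A` normalises `M`. -/
def Nz (A M : Subgroup G) : Prop := ∀ a ∈ A, ∀ m ∈ M, a * m * a⁻¹ ∈ M

theorem Nz.inv {A M : Subgroup G} (h : Nz A M) {a m : G} (ha : a ∈ A) (hm : m ∈ M) :
    a⁻¹ * m * a ∈ M := by
  have := h a⁻¹ (inv_mem ha) m hm
  rwa [inv_inv] at this

theorem Nz.mono {A B M : Subgroup G} (h : Nz B M) (hAB : A ≤ B) : Nz A M :=
  fun a ha m hm => h a (hAB ha) m hm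

theorem Nz.self (M : Subgroup G) : Nz M M :=
  fun _ ha _ hm => mul_mem (mul_mem ha hm) (inv_mem ha)

theorem Nz.of_le {A M : Subgroup G} (h : A ≤ M) : Nz A M := (Nz.self M).mono h

theorem Nz.of_comm {A M : Subgroup G} (h : ⁅A, M⁆ ≤ M) : Nz A M := by
  intro a ha m hm
  have h1 : ⁅a, m⁆ ∈ M := h (commutator_mem_commutator ha hm)
  have h2 := mul_mem h1 hm
  rw [commutatorElement_def] at h2
  simpa using h2

theorem Nz.comm {A M : Subgroup G} (h : Nz A M) : ⁅A, M⁆ ≤ M := by
  rw [commutator_le]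
  intro a ha m hm
  rw [commutatorElement_def]
  exact mul_mem (h a ha m hm) (inv_mem hm)

theorem nz_commutator {A B C : Subgroup G} (hA : Nz C A) (hB : Nz C B) : Nz C ⁅A, B⁆ := by
  intro c hc m hm
  have h1 : ⁅A, B⁆ ≤ Subgroup.comap (MulAut.conj c).toMonoidHom ⁅A, B⁆ := by
    rw [commutator_le]
    intro a ha b hb
    rw [Subgroup.mem_comap]
    change c * ⁅a, b⁆ * c⁻¹ ∈ _
    have e : c * ⁅a, b⁆ * c⁻¹ = ⁅c * a * c⁻¹, c * b * c⁻¹⁆ := by
      simp only [commutatorElement_def]; group
    rw [e]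
    exact commutator_mem_commutator (hA c hc a ha) (hB c hc b hb)
  exact h1 hm

theorem nz_left (A B : Subgroup G) : Nz A ⁅A, B⁆ := by
  intro a' ha' m hm
  have h1 : ⁅A, B⁆ ≤ Subgroup.comap (MulAut.conj a').toMonoidHom ⁅A, B⁆ := by
    rw [commutator_le]
    intro a ha b hb
    rw [Subgroup.mem_comap]
    change a' * ⁅a, b⁆ * a'⁻¹ ∈ _
    have e : a' * ⁅a, b⁆ * a'⁻¹ = ⁅a' * a, b⁆ * ⁅a', b⁆⁻¹ := by
      simp only [commutatorElement_def]; group
    rw [e]
    exact mul_mem (commutator_mem_commutator (mul_mem ha' ha) hb)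
      (inv_mem (commutator_mem_commutator ha' hb))
  exact h1 hm

theorem nz_right (A B : Subgroup G) : Nz B ⁅A, B⁆ := by
  rw [commutator_comm]; exact nz_left B A

/-- The elements that normalise `M` and centralise `C` modulo `M`. -/
def centMod (M C : Subgroup G) : Subgroup G where
  carrier := {g | (∀ m ∈ M, g * m * g⁻¹ ∈ M ∧ g⁻¹ * m * g ∈ M) ∧ ∀ c ∈ C, ⁅g, c⁆ ∈ M}
  one_mem' := by
    refine ⟨fun m hm => by simpa using hm, fun c _ => by simp⟩
  mul_mem' := by
    rintro g h ⟨hg1, hg2⟩ ⟨hh1, hh2⟩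
    refine ⟨fun m hm => ⟨?_, ?_⟩, fun c hc => ?_⟩
    · have := (hg1 _ (hh1 m hm).1).1
      have e : g * h * m * (g * h)⁻¹ = g * (h * m * h⁻¹) * g⁻¹ := by group
      rw [e]; exact this
    · have := (hh1 _ (hg1 m hm).2).2
      have e : (g * h)⁻¹ * m * (g * h) = h⁻¹ * (g⁻¹ * m * g) * h := by group
      rw [e]; exact this
    · have e : ⁅g * h, c⁆ = (g * ⁅h, c⁆ * g⁻¹) * ⁅g, c⁆ := by
        simp only [commutatorElement_def]; group
      rw [e]
      exact mul_mem (hg1 _ (hh2 c hc)).1 (hg2 c hc)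
  inv_mem' := by
    rintro g ⟨hg1, hg2⟩
    refine ⟨fun m hm => ⟨?_, ?_⟩, fun c hc => ?_⟩
    · rw [inv_inv]; exact (hg1 m hm).2
    · rw [inv_inv]; exact (hg1 m hm).1
    · have e : ⁅g⁻¹, c⁆ = g⁻¹ * ⁅g, c⁆⁻¹ * g := by
        simp only [commutatorElement_def]; group
      rw [e]
      exact (hg1 _ (inv_mem (hg2 c hc))).2

theorem le_centMod {A M C : Subgroup G} (h1 : Nz A M) (h2 : ⁅A, C⁆ ≤ M) : A ≤ centMod M C :=
  fun _ ha => ⟨fun _ hm => ⟨h1 _ ha _ hm, h1.inv ha hm⟩,
    fun _ hc => h2 (commutator_mem_commutator ha hc)⟩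

theorem comm_le_of_le_centMod {A M C : Subgroup G} (h : A ≤ centMod M C) : ⁅A, C⁆ ≤ M := by
  rw [commutator_le]
  exact fun a ha c hc => (h ha).2 c hc

theorem nz_of_le_centMod {A M C : Subgroup G} (h : A ≤ centMod M C) : Nz A M :=
  fun a ha m hm => ((h ha).1 m hm).1

theorem Nz.sup {A B M : Subgroup G} (hA : Nz A M) (hB : Nz B M) : Nz (A ⊔ B) M := by
  have h1 : A ≤ centMod M ⊥ := le_centMod hA (by simp)
  have h2 : B ≤ centMod M ⊥ := le_centMod hB (by simp)
  exact nz_of_le_centMod (sup_le h1 h2)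

theorem Nz.iSup {ι : Type*} {A : ι → Subgroup G} {M : Subgroup G} (hA : ∀ i, Nz (A i) M) :
    Nz (⨆ i, A i) M :=
  nz_of_le_centMod (C := ⊥) (iSup_le fun i => le_centMod (hA i) (by simp))

theorem Nz.iSup_right {ι : Type*} {A : Subgroup G} {M : ι → Subgroup G} (hA : ∀ i, Nz A (M i)) :
    Nz A (⨆ i, M i) := by
  intro a ha x hx
  have h1 : (⨆ i, M i) ≤ Subgroup.comap (MulAut.conj a).toMonoidHom (⨆ i, M i) :=
    iSup_le fun i y hy => le_iSup M i (hA i a ha y hy)
  exact h1 hx

theorem Nz.sup_right {A B M : Subgroup G} (hB : Nz A B) (hM : Nz A M) : Nz A (B ⊔ M) := by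
  intro a ha x hx
  have h1 : B ⊔ M ≤ Subgroup.comap (MulAut.conj a).toMonoidHom (B ⊔ M) :=
    sup_le (fun y hy => le_sup_left (a := B) (b := M) (hB a ha y hy))
      (fun y hy => le_sup_right (a := B) (b := M) (hM a ha y hy))
  exact h1 hx

/-- If `X` is abelian modulo `M` and normalises `M`, so is `X ⊔ M`. -/
theorem comm_sup_le {X M : Subgroup G} (hXM : Nz X M) (hX : ⁅X, X⁆ ≤ M) :
    ⁅X ⊔ M, X ⊔ M⁆ ≤ M := by
  have h1 : X ⊔ M ≤ centMod M X := by
    refine sup_le (le_centMod hXM hX) (le_centMod (Nz.self M) ?_)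
    rw [commutator_comm]; exact hXM.comm
  have h2 : ⁅X, X ⊔ M⁆ ≤ M := by
    rw [commutator_comm]; exact comm_le_of_le_centMod h1
  have h3 : Nz (X ⊔ M) M := hXM.sup (Nz.self M)
  have h4 : X ⊔ M ≤ centMod M (X ⊔ M) := by
    refine sup_le (le_centMod hXM h2) (le_centMod (Nz.self M) ?_)
    rw [commutator_comm]; exact h3.comm
  exact comm_le_of_le_centMod h4

/-- A chain of length `k` from `T` down to `X`, each term normalised by the preceding one. -/
def Chain (k : ℕ) (T X : Subgroup G) : Prop :=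
  ∃ Z : ℕ → Subgroup G, Z 0 = T ∧ Z k = X ∧ ∀ i < k, Z (i + 1) ≤ Z i ∧ Nz (Z i) (Z (i + 1))

theorem Chain.refl (T : Subgroup G) : Chain 0 T T := ⟨fun _ => T, rfl, rfl, by simp⟩

theorem Chain.step {k : ℕ} {T X Y : Subgroup G} (h : Chain k T X) (h1 : Y ≤ X) (h2 : Nz X Y) :
    Chain (k + 1) T Y := by
  obtain ⟨Z, h0, hk, hZ⟩ := h
  refine ⟨fun i => if i ≤ k then Z i else Y, ?_, ?_, ?_⟩
  · simp [h0]
  · simp
  · intro i hi
    rcases Nat.lt_or_ge i k with h | h
    · have e1 : i ≤ k := h.le
      have e2 : i + 1 ≤ k := h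
      simp only [e1, e2, if_true]
      exact hZ i h
    · have e : i = k := by omega
      subst e
      simp only [le_refl, if_true, add_le_iff_nonpos_right, nonpos_iff_eq_zero, one_ne_zero,
        if_false, hk]
      exact ⟨h1, h2⟩

theorem Chain.anti {k : ℕ} {Z : ℕ → Subgroup G} (h : ∀ i < k, Z (i + 1) ≤ Z i) :
    ∀ i ≤ k, Z k ≤ Z i := by
  intro i hi
  induction k, hi using Nat.le_induction with
  | base => exact le_rfl
  | succ n hn ih =>
    exact (h n (Nat.lt_succ_self n)).trans (ih fun j hj => h j (Nat.lt_succ_of_lt hj))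

theorem Chain.le {k : ℕ} {T X : Subgroup G} (h : Chain k T X) : X ≤ T := by
  obtain ⟨Z, h0, hk, hZ⟩ := h
  rw [← h0, ← hk]
  exact Chain.anti (fun i hi => (hZ i hi).1) 0 (Nat.zero_le _)

section series

variable (T : ℕ → Subgroup G)

/-- `T (m + a)` is contained in every subgroup that contains all `X i m` and is normalised by
`T m`. -/
def Cov {ι : Type*} (a : ℕ) (X : ι → ℕ → Subgroup G) : Prop :=
  ∀ (m : ℕ) (M : Subgroup G), Nz (T m) M → (∀ i, X i m ≤ M) → T (m + a) ≤ M

variable {T}

/-- Main step: one of the `X i` can be replaced by its derived subgroup. -/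
theorem Cov.derive {ι : Type*} [DecidableEq ι] {a : ℕ} {X : ι → ℕ → Subgroup G}
    (hT : ∀ m, T (m + 1) = ⁅T m, T m⁆) (h : Cov T a X)
    (hanti : ∀ i, Antitone (X i)) (i0 : ι) {r : ℕ} (hr : ∀ m, Chain r (T m) (X i0 m)) :
    Cov T (r * a + 1) (fun i m => if i = i0 then ⁅X i m, X i m⁆ else X i m) := by
  have hTanti : Antitone T := antitone_nat_of_succ_le fun m => by
    rw [hT]; exact commutator_le_self _
  intro m0 M hM hX
  obtain ⟨Z, h0, hk, hZ⟩ := hr m0
  have hZT : ∀ k ≤ r, Z k ≤ T m0 := by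
    intro k hk'
    rw [← h0]
    exact Chain.anti (fun i hi => (hZ i (lt_of_lt_of_le hi hk')).1) 0 (Nat.zero_le _)
  have key : ∀ k ≤ r, T (m0 + k * a) ≤ Z k ⊔ M := by
    intro k
    induction k with
    | zero =>
      intro _
      rw [h0]; simp
    | succ k ih =>
      intro hkr
      have h1 := ih (by omega)
      have h2 : T (m0 + k * a + a) ≤ Z (k + 1) ⊔ M := by
        apply h (m0 + k * a)
        · refine Nz.mono ?_ h1
          refine Nz.sup ?_ (Nz.of_le le_sup_right)
          exact Nz.sup_right (hZ k (by omega)).2 (hM.mono (hZT k (by omega)))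
        · intro i
          by_cases hi : i = i0
          · subst hi
            refine le_trans (hanti i (Nat.le_add_right m0 (k * a))) (le_trans ?_ le_sup_left)
            rw [← hk]
            exact Chain.anti (fun i hi => (hZ i hi).1) (k + 1) hkr
          · refine le_trans (hanti i (Nat.le_add_right m0 (k * a))) (le_trans ?_ le_sup_right)
            have := hX i
            simpa only [if_neg hi] using this
      have e : m0 + (k + 1) * a = m0 + k * a + a := by ring
      rw [e]; exact h2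
  have h3 := key r le_rfl
  rw [hk] at h3
  have e : m0 + (r * a + 1) = m0 + r * a + 1 := by ring
  rw [e, hT]
  refine (commutator_mono h3 h3).trans (comm_sup_le ?_ ?_)
  · rw [← hk]; exact hM.mono (hZT r le_rfl)
  · have := hX i0
    simpa using this

/-- All the `X i` can be replaced by their derived subgroups. -/
theorem Cov.derive_all {ι : Type*} [Fintype ι] [DecidableEq ι] {a : ℕ} {X : ι → ℕ → Subgroup G}
    (hT : ∀ m, T (m + 1) = ⁅T m, T m⁆) (h : Cov T a X)
    (hanti : ∀ i, Antitone (X i)) {r : ℕ} (hr : ∀ i m, Chain r (T m) (X i m)) :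
    ∃ b, Cov T b (fun i m => ⁅X i m, X i m⁆) := by
  have key : ∀ S : Finset ι, ∃ b,
      Cov T b (fun i m => if i ∈ S then ⁅X i m, X i m⁆ else X i m) := by
    intro S
    induction S using Finset.induction_on with
    | empty => exact ⟨a, by simpa using h⟩
    | insert i0 S hi0 ih =>
      obtain ⟨b, hb⟩ := ih
      have h1 : ∀ i, Antitone (fun m => if i ∈ S then ⁅X i m, X i m⁆ else X i m) := by
        intro i m m' hm
        by_cases hi : i ∈ S
        · simp only [if_pos hi]
          exact commutator_mono (hanti i hm) (hanti i hm)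
        · simp only [if_neg hi]
          exact hanti i hm
      have h2 : ∀ m, Chain r (T m) (if i0 ∈ S then ⁅X i0 m, X i0 m⁆ else X i0 m) := by
        intro m
        rw [if_neg hi0]
        exact hr i0 m
      refine ⟨r * b + 1, ?_⟩
      have h3 := Cov.derive hT hb h1 i0 h2
      convert h3 using 3 with i m
      by_cases hi : i = i0
      · subst hi
        simp [hi0]
      · simp [hi, Finset.mem_insert]
  obtain ⟨b, hb⟩ := key Finset.univ
  exact ⟨b, by simpa using hb⟩

end series

/-- The iterated commutators `[T, H, …, H]`. -/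
def itc (T H : Subgroup G) : ℕ → Subgroup G
  | 0 => T
  | j + 1 => ⁅itc T H j, H⁆

theorem itc_nz (T H : Subgroup G) (h : Nz H T) : ∀ j, Nz H (itc T H j)
  | 0 => h
  | j + 1 => nz_right _ _

theorem itc_le (T H : Subgroup G) (h : Nz H T) (j : ℕ) : itc T H (j + 1) ≤ itc T H j := by
  show ⁅itc T H j, H⁆ ≤ _
  rw [commutator_comm]
  exact (itc_nz T H h j).comm

theorem itc_chain (T H : Subgroup G) (h : Nz H T) : ∀ j, Chain j T (itc T H j)
  | 0 => Chain.refl T
  | j + 1 => (itc_chain T H h j).step (itc_le T H h j) (nz_left _ _)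

theorem itc_mono {T T' H : Subgroup G} (h : T ≤ T') : ∀ j, itc T H j ≤ itc T' H j
  | 0 => h
  | j + 1 => commutator_mono (itc_mono h j) le_rfl

/-- The derived subgroup of `[T, H, …, H]` (`j + 1` times) is contained in every subgroup `M` which
contains `[T, H, …, H]` (`j + 2` times) and is normalised by `T`. -/
theorem itc_derived {T H M : Subgroup G} (h : Nz H T) (hM : Nz T M) (j : ℕ)
    (hj : itc T H (j + 2) ≤ M) : ⁅itc T H (j + 1), itc T H (j + 1)⁆ ≤ M := by
  set A := itc T H j with hA
  have hAT : A ≤ T := (itc_chain T H h j).le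
  set X := itc T H (j + 1) with hX
  have hXeq : X = ⁅A, H⁆ := rfl
  have hXA : X ≤ A := itc_le T H h j
  have hAX : Nz A X := nz_left _ _
  have hHX : Nz H X := nz_right _ _
  have hHA : Nz H A := itc_nz T H h j
  have hY2 : ⁅X, H⁆ ≤ M := hj
  -- the closure of `[X, H]` under conjugation by `A`
  let Y : Subgroup G := Subgroup.closure {y | ∃ t ∈ A, ∃ x ∈ ⁅X, H⁆, y = t * x * t⁻¹}
  have hYM : Y ≤ M := by
    rw [Subgroup.closure_le]
    rintro _ ⟨t, ht, x, hx, rfl⟩
    exact hM t (hAT ht) x (hY2 hx)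
  have hXY : ⁅X, H⁆ ≤ Y := by
    intro x hx
    exact Subgroup.subset_closure ⟨1, one_mem _, x, hx, by simp⟩
  have hAY : Nz A Y := by
    intro a ha y hy
    have h1 : Y ≤ Subgroup.comap (MulAut.conj a).toMonoidHom Y := by
      rw [Subgroup.closure_le]
      rintro _ ⟨t, ht, x, hx, rfl⟩
      refine Subgroup.subset_closure ⟨a * t, mul_mem ha ht, x, hx, ?_⟩
      show a * (t * x * t⁻¹) * a⁻¹ = _
      group
    exact h1 hy
  have hHY : Nz H Y := by
    intro a ha y hy
    have h1 : Y ≤ Subgroup.comap (MulAut.conj a).toMonoidHom Y := by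
      rw [Subgroup.closure_le]
      rintro _ ⟨t, ht, x, hx, rfl⟩
      refine Subgroup.subset_closure ⟨a * t * a⁻¹, hHA a ha t ht, a * x * a⁻¹,
        nz_right X H a ha x hx, ?_⟩
      show a * (t * x * t⁻¹) * a⁻¹ = _
      group
    exact h1 hy
  have hH : H ≤ centMod Y X := by
    refine le_centMod hHY ?_
    rw [commutator_comm]; exact hXY
  have h1 : X ≤ centMod Y X := by
    rw [hXeq, commutator_le]
    intro x hx k hk
    have e : ⁅x, k⁆ = (x * k * x⁻¹) * k⁻¹ := by
      simp only [commutatorElement_def]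
    rw [e]
    refine mul_mem ?_ (inv_mem (by rw [← hXeq]; exact hH hk))
    rw [← hXeq]
    refine ⟨fun m hm => ⟨?_, ?_⟩, fun c hc => ?_⟩
    · have e : x * k * x⁻¹ * m * (x * k * x⁻¹)⁻¹ = x * (k * (x⁻¹ * m * x) * k⁻¹) * x⁻¹ := by group
      rw [e]
      exact hAY x hx _ (hHY k hk _ (hAY.inv hx hm))
    · have e : (x * k * x⁻¹)⁻¹ * m * (x * k * x⁻¹) = x * (k⁻¹ * (x⁻¹ * m * x) * k) * x⁻¹ := by group
      rw [e]
      exact hAY x hx _ (hHY.inv hk (hAY.inv hx hm))
    · have e : ⁅x * k * x⁻¹, c⁆ = x * ⁅k, x⁻¹ * c * x⁆ * x⁻¹ := by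
        simp only [commutatorElement_def]; group
      rw [e]
      exact hAY x hx _ ((hH hk).2 _ (hAX.inv hx hc))
  exact (comm_le_of_le_centMod h1).trans hYM

/-- **The join of finitely many subnormal soluble subgroups is soluble** (series form). -/
theorem series_bot {ι : Type*} [Fintype ι] [DecidableEq ι] (H : ι → Subgroup G)
    (T : ℕ → Subgroup G) (hT0 : T 0 = ⨆ i, H i) (hT : ∀ m, T (m + 1) = ⁅T m, T m⁆)
    (r : ℕ) (hr : ∀ i, itc (T 0) (H i) r ≤ H i)
    (d : ℕ) (S : ι → ℕ → Subgroup G) (hS0 : ∀ i, S i 0 = H i)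
    (hS : ∀ i j, S i (j + 1) = ⁅S i j, S i j⁆) (hSd : ∀ i, S i d = ⊥) :
    ∃ a, T a = ⊥ := by
  have hTanti : Antitone T := antitone_nat_of_succ_le fun m => by
    rw [hT]; exact commutator_le_self _
  have hHT : ∀ i m, Nz (H i) (T m) := by
    intro i m
    induction m with
    | zero =>
      rw [hT0]
      exact Nz.of_le (le_iSup H i)
    | succ m ih =>
      rw [hT]
      exact nz_commutator ih ih
  -- step 1
  have step1 : Cov T 1 (fun i m => itc (T m) (H i) 1) := by
    intro m M hM hX
    let P : Subgroup G := ⨆ i, ⁅T m, H i⁆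
    have hPM : P ≤ M := iSup_le fun i => hX i
    have hPT : P ≤ T m := iSup_le fun i => by
      rw [commutator_comm]; exact (hHT i m).comm
    have h1 : ∀ i, H i ≤ centMod P (T m) := by
      intro i
      have h2 : ⁅H i, T m⁆ ≤ P := by
        rw [commutator_comm]; exact le_iSup (fun i => ⁅T m, H i⁆) i
      exact le_centMod (Nz.of_comm ((commutator_mono le_rfl hPT).trans h2)) h2
    have h2 : T 0 ≤ centMod P (T m) := by rw [hT0]; exact iSup_le h1
    rw [hT]
    exact (comm_le_of_le_centMod ((hTanti (Nat.zero_le m)).trans h2)).trans hPM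
  -- step 2
  have step2 : ∀ j, ∃ a, Cov T a (fun i m => itc (T m) (H i) (j + 1)) := by
    intro j
    induction j with
    | zero => exact ⟨1, step1⟩
    | succ j ih =>
      obtain ⟨a, ha⟩ := ih
      obtain ⟨b, hb⟩ := ha.derive_all hT (fun i m m' hm => itc_mono (hTanti hm) _)
        (fun i m => itc_chain (T m) (H i) (hHT i m) (j + 1))
      refine ⟨b, fun m M hM hX => hb m M hM fun i => ?_⟩
      exact itc_derived (hHT i m) hM j (hX i)
  -- step 3
  have step3 : ∀ e, ∃ (X : ι → ℕ → Subgroup G) (a k : ℕ), Cov T a X ∧ (∀ i, Antitone (X i)) ∧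
      (∀ i m, Chain k (T m) (X i m)) ∧ ∀ i m, X i m ≤ S i e := by
    intro e
    induction e with
    | zero =>
      obtain ⟨a, ha⟩ := step2 r
      refine ⟨_, a, r + 1, ha, fun i m m' hm => itc_mono (hTanti hm) _,
        fun i m => itc_chain (T m) (H i) (hHT i m) (r + 1), fun i m => ?_⟩
      rw [hS0]
      refine (itc_mono (hTanti (Nat.zero_le m)) _).trans ?_
      exact (itc_le (T 0) (H i) (hHT i 0) r).trans (hr i)
    | succ e ih =>
      obtain ⟨X, a, k, h1, h2, h3, h4⟩ := ih
      obtain ⟨b, hb⟩ := h1.derive_all hT h2 h3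
      refine ⟨_, b, k + 1, hb, fun i m m' hm => commutator_mono (h2 i hm) (h2 i hm),
        fun i m => (h3 i m).step (commutator_le_self _) (nz_left _ _), fun i m => ?_⟩
      rw [hS]
      exact commutator_mono (h4 i m) (h4 i m)
  obtain ⟨X, a, k, h1, -, -, h4⟩ := step3 d
  refine ⟨0 + a, ?_⟩
  rw [eq_bot_iff]
  apply h1 0 ⊥
  · intro t _ m hm
    rw [Subgroup.mem_bot] at hm ⊢
    rw [hm]; simp
  · intro i
    rw [← hSd i]
    exact h4 i 0

/-- The derived series of the subgroup `J` as a series of subgroups of `G`. -/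
def dser (J : Subgroup G) (m : ℕ) : Subgroup G := (derivedSeries J m).map J.subtype

theorem dser_zero (J : Subgroup G) : dser J 0 = J := by
  simp [dser, derivedSeries_zero, ← MonoidHom.range_eq_map]

theorem dser_succ (J : Subgroup G) (m : ℕ) : dser J (m + 1) = ⁅dser J m, dser J m⁆ := by
  simp only [dser, derivedSeries_succ, map_commutator]

theorem dser_eq_bot {J : Subgroup G} {m : ℕ} : dser J m = ⊥ ↔ derivedSeries J m = ⊥ := by
  unfold dser
  rw [Subgroup.map_eq_bot_iff_of_injective _ J.subtype_injective]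

theorem dser_anti (J : Subgroup G) : Antitone (dser J) := antitone_nat_of_succ_le fun m => by
  rw [dser_succ]; exact commutator_le_self _

/-- The iterated commutators with a subnormal subgroup end in the subgroup. -/
theorem itc_le_of_chain {H : Subgroup G} {n : ℕ} {f : ℕ → Subgroup G} (h0 : f 0 = H)
    (hn : f n = ⊤) (hf : ∀ i < n, f i ≤ f (i + 1) ∧ ((f i).subgroupOf (f (i + 1))).Normal)
    (T : Subgroup G) : itc T H n ≤ H := by
  have hH : ∀ i ≤ n, H ≤ f i := by
    intro i
    induction i with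
    | zero => intro _; rw [h0]
    | succ i ih => intro hi; exact (ih (by omega)).trans (hf i (by omega)).1
  have key : ∀ j ≤ n, itc T H j ≤ f (n - j) := by
    intro j
    induction j with
    | zero => intro _; simp [hn]
    | succ j ih =>
      intro hj
      have h1 := ih (by omega)
      have e : n - j = (n - (j + 1)) + 1 := by omega
      rw [e] at h1
      obtain ⟨h2, h3⟩ := hf (n - (j + 1)) (by omega)
      show ⁅itc T H j, H⁆ ≤ _
      have h4 : Nz (f (n - (j + 1) + 1)) (f (n - (j + 1))) := by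
        intro a ha m hm
        have := h3.conj_mem ⟨m, h2 hm⟩ hm ⟨a, ha⟩
        exact this
      exact (commutator_mono h1 (hH (n - (j + 1)) (by omega))).trans h4.comm
  have := key n le_rfl
  simpa [h0] using this

/-- `H` is subnormal: there is a finite chain of subgroups, each normal in the next one, from `H`
to the whole group. -/
def Subnormal (H : Subgroup G) : Prop :=
  ∃ n : ℕ, ∃ f : ℕ → Subgroup G, f 0 = H ∧ f n = ⊤ ∧
    ∀ i < n, f i ≤ f (i + 1) ∧ ((f i).subgroupOf (f (i + 1))).Normal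

/-- **The join of finitely many subnormal soluble subgroups is soluble.** -/
theorem isSolvable_iSup {ι : Type*} [Finite ι] (H : ι → Subgroup G)
    (hsn : ∀ i, Subnormal (H i)) (hsol : ∀ i, Group.IsSolvable (H i)) :
    Group.IsSolvable (⨆ i, H i : Subgroup G) := by
  classical
  have := Fintype.ofFinite ι
  choose n f h0 hn hf using hsn
  choose d hd using fun i => (hsol i).solvable
  obtain ⟨a, ha⟩ := series_bot H (dser (⨆ i, H i)) (dser_zero _) (dser_succ _)
    (Finset.univ.sup n) (fun i => by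
      have h1 : n i ≤ Finset.univ.sup n := Finset.le_sup (Finset.mem_univ i)
      rw [dser_zero]
      have h2 : Nz (H i) (⨆ i, H i) := Nz.of_le (le_iSup H i)
      have h3 : Antitone (itc (⨆ i, H i) (H i)) :=
        antitone_nat_of_succ_le fun j => itc_le _ _ h2 j
      exact (h3 h1).trans (itc_le_of_chain (h0 i) (hn i) (hf i) _))
    (Finset.univ.sup d) (fun i => dser (H i)) (fun i => dser_zero _) (fun i => dser_succ _)
    (fun i => by
      have h1 : d i ≤ Finset.univ.sup d := Finset.le_sup (Finset.mem_univ i)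
      have h2 := dser_anti (H i) h1
      rw [dser_eq_bot.2 (hd i)] at h2
      exact le_bot_iff.1 h2)
  exact ⟨a, dser_eq_bot.1 ha⟩

/-- A group generated by subnormal soluble subgroups is locally soluble. -/
theorem locally_soluble (h : sSup {H : Subgroup G | Subnormal H ∧ Group.IsSolvable H} = ⊤)
    (K : Subgroup G) (hK : K.FG) : Group.IsSolvable K := by
  classical
  set A := {H : Subgroup G | Subnormal H ∧ Group.IsSolvable H} with hA
  -- every element lies in the join of finitely many members of `A`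
  have hfin : ∀ x : G, ∃ F : Finset (Subgroup G), (∀ H ∈ F, H ∈ A) ∧ x ∈ ⨆ H : F, (H : Subgroup G) := by
    let U : Subgroup G :=
      { carrier := {x | ∃ F : Finset (Subgroup G), (∀ H ∈ F, H ∈ A) ∧
          x ∈ ⨆ H : F, (H : Subgroup G)}
        one_mem' := ⟨∅, by simp, one_mem _⟩
        mul_mem' := by
          rintro x y ⟨F, hF, hx⟩ ⟨F', hF', hy⟩
          refine ⟨F ∪ F', fun H hH => ?_, ?_⟩
          · rcases Finset.mem_union.1 hH with h | h
            · exact hF H h
            · exact hF' H h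
          · refine mul_mem ?_ ?_
            · refine (iSup_le fun H => ?_ : (⨆ H : F, (H : Subgroup G)) ≤ _) hx
              exact le_iSup (fun H : (F ∪ F' : Finset (Subgroup G)) => (H : Subgroup G))
                ⟨H.1, Finset.mem_union_left _ H.2⟩
            · refine (iSup_le fun H => ?_ : (⨆ H : F', (H : Subgroup G)) ≤ _) hy
              exact le_iSup (fun H : (F ∪ F' : Finset (Subgroup G)) => (H : Subgroup G))
                ⟨H.1, Finset.mem_union_right _ H.2⟩
        inv_mem' := by
          rintro x ⟨F, hF, hx⟩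
          exact ⟨F, hF, inv_mem hx⟩ }
    have hU : U = ⊤ := by
      rw [eq_top_iff, ← h]
      refine sSup_le fun H hH x hx => ?_
      refine ⟨{H}, by simpa using hH, ?_⟩
      exact le_iSup (fun H' : ({H} : Finset (Subgroup G)) => (H' : Subgroup G))
        ⟨H, Finset.mem_singleton_self H⟩ hx
    intro x
    have : x ∈ U := by rw [hU]; trivial
    exact this
  choose F hF hxF using hfin
  obtain ⟨S, hS⟩ := hK
  let F' : Finset (Subgroup G) := S.biUnion F
  have hKle : K ≤ ⨆ H : F', (H : Subgroup G) := by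
    rw [← hS, Subgroup.closure_le]
    intro x hx
    refine (iSup_le fun H => ?_ : (⨆ H : F x, (H : Subgroup G)) ≤ _) (hxF x)
    exact le_iSup (fun H : F' => (H : Subgroup G)) ⟨H.1, Finset.mem_biUnion.2 ⟨x, hx, H.2⟩⟩
  have hmem : ∀ H : F', (H : Subgroup G) ∈ A := by
    rintro ⟨H, hH⟩
    obtain ⟨x, _, hx⟩ := Finset.mem_biUnion.1 hH
    exact hF x H hx
  have hs : Group.IsSolvable (⨆ H : F', (H : Subgroup G) : Subgroup G) :=
    isSolvable_iSup (fun H : F' => (H : Subgroup G)) (fun H => (hmem H).1)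
      (fun H => (hmem H).2)
  exact Group.isSolvable_of_isSolvable_injective (Subgroup.inclusion_injective hKle)

end Pool.Agent.K9h87.SubnormalJoin
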